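import Pool.Agent.STF.Main

/-!
# Strichartz estimates on connected compact Lie groups, all metrics, full range `p > 2 + 4/r`

`CptGrp`: a closed connected subgroup `K` of `U(N)` with a basis of its Lie algebra orthonormal for minus
the Killing form. By the first conclusion every closed connected subgroup of `U(N)` whose Lie algebra
has trivial centre is one of them, in particular every simply connected compact simple Lie group.
`MetGrp`: a connected compact Lie group `Q`, the quotient of `T^n x K_1 x ... x K_m` by a finite normal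
subgroup, with the metric `(⊗ α_i dt_i²) ⊗ (⊗ β_j g_j)`, arbitrary `α_i, β_j > 0`, `g_j` = minus the
Killing form, each circle of length `2π` for `dt_i²`. The definitions are in `Pool/Agent/STF/Defs.lean`.

The next three conclusions say that `eitD` and `sob` are the functional calculus of the Laplace operator:
every `f` in `L²` is the sum of its projections on the eigenspaces, these are pairwise orthogonal, and
minus the Laplace operator has nonnegative eigenvalues. The last one is the Strichartz estimate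
`‖e^{itΔ} f‖_{L^p([a,b] x Q)} ≤ C ‖f‖_{H^s(Q)}`, `s = d/2 - (d+2)/p`, `d = dim Q`, `r = rank Q`,
`p > 2 + 4/r`.
-/

open MeasureTheory STF
open scoped NNReal

namespace Pool.Agent.Results.MP_0daedf_an.CompactLieGroups

theorem result :
    (∀ (N : ℕ) (K : Subgroup (UN N)), IsClosed (K : Set (UN N)) → IsConnected (K : Set (UN N)) →
      (∀ X ∈ lieOf K, (∀ Y ∈ lieOf K, X * Y = Y * X) → X = 0) →
      ∃ F : CptGrp, (⟨F.N, F.K⟩ : Σ N : ℕ, Subgroup (UN N)) = ⟨N, K⟩) ∧
    ∀ S : MetGrp,
      (∀ f : Lsq S.Q, HasSum (fun lam : ℝ => S.proj lam f) f) ∧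
      (∀ lam mu : ℝ, lam ≠ mu → S.eigL2 lam ⟂ S.eigL2 mu) ∧
      (∀ lam : ℝ, S.eigL2 lam ≠ ⊥ → 0 ≤ lam) ∧
      (0 < S.rank → ∀ p : ℝ, 2 + 4 / (S.rank : ℝ) < p → ∀ a b : ℝ, a < b →
        ∃ C : ℝ≥0, ∀ f : Lsq S.Q,
          S.normST p a b f ≤ C * S.sob ((S.dim : ℝ) / 2 - ((S.dim : ℝ) + 2) / p) f) :=
  ⟨CptGrp.exists_cptGrp, fun S => ⟨S.hasSum_proj, S.eigL2_orth, S.eigL2_nonneg, S.estimate⟩⟩

end Pool.Agent.Results.MP_0daedf_an.CompactLieGroups
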